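import Pool.Agent.Helper7_KRO.Lines
import Pool.Agent.Helper7_KRO.LData
import Pool.Agent.Helper49_SOS.Dense

/-!
# The one-variable condition `l3` of the certificate (`a ≥ 5`)
-/

set_option autoImplicit false

namespace Pool.Agent.Helper7_KRO

/-- the kernel check -/
theorem l3_chk : chkLines (Nat.pow 2 1024) 1024 79228162514264337593543950336 10 6
    [(1024, 48054309677596482279189095236, 48054309677596482279189095977),
  (2048, 29146412150787779157341161326, 29146412150787779157341162225),
  (3072, 17678192590073626538231876571, 17678192590073626538231877389),
  (4096, 10722365814184344471345157555, 10722365814184344471345158217),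
  (5120, 6503443610957418258982515872, 6503443610957418258982516374)]
    5120 6503443610957418258982515872 6503443610957418258982516374 lE1p lE2p
    [(7168, 2392483201219082406251941999, 2392483202263473266638568524),
  (9216, 880145383050817456682897436, 880145383819237308995347734),
  (11264, 323787391656897183736948110, 323787392080925982597726335),
  (13312, 119114724697617171530133009, 119114724905605808323452601),
  (15360, 43819858355768982461574613, 43819858451412411821575704),
  (17408, 16120425003660936293613646, 16120425045883237915208390),
  (19456, 5930372941619618001904284, 5930372959741120851775063),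
  (21504, 2181662283637509216494394, 2181662291256398751188571),
  (23552, 802588701705924181790145, 802588704859111109802750),
  (25600, 295255883065460044420077, 295255884354340761315255),
  (27648, 108618569261527818099775, 108618569783095807853224),
  (29696, 39958538559604680495743, 39958538768921924829943),
  (31744, 14699924834905298982422, 14699924918325769110839),
  (33792, 5407800133369126661385, 5407800166418469980204),
  (35840, 1989418490972545443065, 1989418503999160393254),
  (37888, 731866162693725530356, 731866167805430948103),
  (39936, 269238514936187225468, 269238516934209266643),
  (41984, 99047314413658956644, 99047315191927320039),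
  (44032, 36437470674964127651, 36437470977179110016),
  (46080, 13404596349214875430, 13404596466245063691),
  (48128, 4931275413933809308, 4931275459139459588),
  (50176, 1814114843487425749, 1814114860909570800),
  (52224, 667375554823468894, 667375561524047381),
  (54272, 245513746152763942, 245513748724943147),
  (56320, 90319459731946588, 90319460717625598),
  (58368, 33226672372124059, 33226672749239545),
  (60416, 12223409663886375, 12223409807955296),
  (62464, 4496741116228711, 4496741171191669),
  (64512, 1654258608882520, 1654258629824397),
  (66560, 608567732570963, 608567740540708),
  (68608, 223879557366634, 223879560396271),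
  (70656, 82360686451340, 82360687601835),
  (72704, 30298803305329, 30298803741800),
  (74752, 11146306827802, 11146306993237),
  (76800, 4100497126817, 4100497189468),
  (78848, 1508488591494, 1508488615201),
  (80896, 554941940036, 554941949000),
  (82944, 204151730777, 204151734164),
  (86016, 45552407761, 45552414899),
  (89088, 10164115900, 10164118917),
  (92160, 2267920777, 2267921769),
  (95232, 506041519, 506041812),
  (98304, 112913123, 112913205),
  (102400, 15281110, 15281271),
  (110592, 242843, 407534),
  (118784, 3859, 10869),
  (126976, 61, 290)] = true := by
  decide +kernel

theorem l3_e1 (a : ℝ) (ha : 5 ≤ a) :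
    Pool.Agent.LPK.e1 lE1p a + Real.exp (-a / 2) * Pool.Agent.LPK.e1 lE2p a ≤ 0 :=
  linesSound l3_chk a (by norm_num; exact ha)

theorem l3_v1 (a : ℝ) (ha : 5 ≤ a) :
    Pool.Agent.SOS.v1 lE1p a + Real.exp (-a / 2) * Pool.Agent.SOS.v1 lE2p a ≤ 0 := by
  have h : ∀ p : List ℤ, Pool.Agent.SOS.v1 p a = Pool.Agent.LPK.e1 p a := by
    intro p
    induction p with
    | nil => rfl
    | cons c p ih => rw [Pool.Agent.SOS.v1_cons, ih, e1_cons]
  rw [h, h]
  exact l3_e1 a ha

end Pool.Agent.Helper7_KRO
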