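import Pool.Agent.LPK.Defs

/-!
# One-variable conditions with an exponential factor: kernel check

`chkLines X w S K1 K2 pre U0 l0 h0 E1 E2 pcs = true` implies
`e1 E1 a + e^(-a/2) e1 E2 a ≤ 0` for all `a ≥ U0 / w` (`linesSound`).

Pieces `(U, l, h)`: end point `U / w` of the interval, lower and upper value of `S e^(-a/2)` there; on each
interval Taylor polynomials of the exponential function of degrees `2 K + 1` and `2 K` are used, and the
coefficients of the Bernstein form are `≤ 0`; the last interval is unbounded.  The coefficients are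
digits of one number, the value of the polynomial at the integer `X` (larger than twice the sum of
the absolute values of the coefficients).
-/

set_option autoImplicit false

namespace Pool.Agent.Helper7_KRO

open Pool.Agent.LPK (e1)

/-! ### the functions which the kernel evaluates -/

/-- positive part -/
def posP : ℤ → ℕ
  | Int.ofNat n => n
  | Int.negSucc _ => 0

/-- negative part -/
def negP : ℤ → ℕ
  | Int.ofNat _ => 0
  | Int.negSucc n => Nat.succ n

/-- absolute value -/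
def absP : ℤ → ℕ
  | Int.ofNat n => n
  | Int.negSucc n => Nat.succ n

/-- `∑ f(a_k) V^k Y^(N-k)` -/
def hv (f : ℤ → ℕ) (Y V : ℕ) : List ℤ → ℕ
  | [] => 0
  | a :: p => Nat.add (Nat.mul (f a) (Nat.pow Y p.length)) (Nat.mul V (hv f Y V p))

/-- `∑ over k ≤ K, k = s mod 2, of d^k (c Y)^(K-k) K!/k!` -/
def tp (c d Y s : ℕ) : ℕ → ℕ
  | 0 => cond (Nat.beq s 0) 1 0
  | K + 1 => Nat.add (Nat.mul (Nat.mul (Nat.mul (K + 1) c) Y) (tp c d Y s K))
      (cond (Nat.beq (Nat.mod (K + 1) 2) s) (Nat.pow d (K + 1)) 0)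

/-- `c^K K!` -/
def fc (c : ℕ) : ℕ → ℕ
  | 0 => 1
  | K + 1 => Nat.mul (Nat.mul (K + 1) c) (fc c K)

/-- the digits of `D` in base `X` are smaller than `X / 2` -/
def dgt (X : ℕ) : ℕ → ℕ → Bool
  | 0, D => Nat.beq D 0
  | f + 1, D => Nat.blt (Nat.mul 2 (Nat.mod D X)) X && dgt X f (Nat.div D X)

/-- a polynomial with the value `P - N` at `X` and norm at most `B` has no positive coefficients -/
def chkNeg (X f B P N : ℕ) : Bool := Nat.blt (Nat.mul 2 B) X && (Nat.ble P N && dgt X f (Nat.sub N P))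

/-- one interval `[U, U + d]`, one bound `v` of the exponential function -/
def chkP (X w S K v U d : ℕ) (E1 E2 : List ℤ) : Bool :=
  chkNeg X (Nat.add E1.length K)
    (Nat.add (Nat.mul (Nat.mul (Nat.mul S (fc (Nat.mul 2 w) K)) (Nat.pow 2 K))
        (hv absP (Nat.mul 2 w) (Nat.add (Nat.mul 2 U) d) E1))
      (Nat.mul v (Nat.mul (Nat.add (tp (Nat.mul 2 w) d 2 0 K) (tp (Nat.mul 2 w) d 2 1 K))
        (hv absP (Nat.mul 2 w) (Nat.add (Nat.mul 2 U) d) E2))))
    (Nat.add (Nat.mul (Nat.mul (Nat.mul S (fc (Nat.mul 2 w) K)) (Nat.pow (Nat.succ X) K))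
        (hv posP (Nat.mul w (Nat.succ X)) (Nat.add (Nat.mul U (Nat.succ X)) d) E1))
      (Nat.mul v (Nat.add
        (Nat.mul (tp (Nat.mul 2 w) d (Nat.succ X) 0 K)
          (hv posP (Nat.mul w (Nat.succ X)) (Nat.add (Nat.mul U (Nat.succ X)) d) E2))
        (Nat.mul (tp (Nat.mul 2 w) d (Nat.succ X) 1 K)
          (hv negP (Nat.mul w (Nat.succ X)) (Nat.add (Nat.mul U (Nat.succ X)) d) E2)))))
    (Nat.add (Nat.mul (Nat.mul (Nat.mul S (fc (Nat.mul 2 w) K)) (Nat.pow (Nat.succ X) K))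
        (hv negP (Nat.mul w (Nat.succ X)) (Nat.add (Nat.mul U (Nat.succ X)) d) E1))
      (Nat.mul v (Nat.add
        (Nat.mul (tp (Nat.mul 2 w) d (Nat.succ X) 0 K)
          (hv negP (Nat.mul w (Nat.succ X)) (Nat.add (Nat.mul U (Nat.succ X)) d) E2))
        (Nat.mul (tp (Nat.mul 2 w) d (Nat.succ X) 1 K)
          (hv posP (Nat.mul w (Nat.succ X)) (Nat.add (Nat.mul U (Nat.succ X)) d) E2)))))

/-- the unbounded interval `[U, ∞)` -/
def chkT (X w S v U : ℕ) (E1 E2 : List ℤ) : Bool :=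
  chkNeg X E1.length
    (Nat.add (Nat.mul S (hv absP w (Nat.succ U) E1)) (Nat.mul v (hv absP w (Nat.succ U) E2)))
    (Nat.add (Nat.mul S (hv posP w (Nat.add U X) E1)) (Nat.mul v (hv posP w (Nat.add U X) E2)))
    (Nat.add (Nat.mul S (hv negP w (Nat.add U X) E1)) (Nat.mul v (hv negP w (Nat.add U X) E2)))

/-- transport of the bounds of the exponential function by `d` -/
def bnd (w K d l h l' h' : ℕ) : Bool :=
  Nat.ble (Nat.add (Nat.mul l' (fc (Nat.mul 2 w) (2 * K + 1))) (Nat.mul l (tp (Nat.mul 2 w) d 1 1 (2 * K + 1))))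
      (Nat.mul l (tp (Nat.mul 2 w) d 1 0 (2 * K + 1))) &&
    Nat.ble (Nat.mul h (tp (Nat.mul 2 w) d 1 0 (2 * K)))
      (Nat.add (Nat.mul h' (fc (Nat.mul 2 w) (2 * K))) (Nat.mul h (tp (Nat.mul 2 w) d 1 1 (2 * K))))

/-- the pieces -/
def go (X w S K : ℕ) (E1 E2 : List ℤ) : List (ℕ × ℕ × ℕ) → ℕ → ℕ → ℕ → Bool
  | [], U, _, h => chkT X w S 0 U E1 E2 && chkT X w S h U E1 E2
  | x :: r, U, l, h =>
    Nat.blt U x.1 &&
      (chkP X w S (2 * K + 1) l U (Nat.sub x.1 U) E1 E2 &&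
      (chkP X w S (2 * K) h U (Nat.sub x.1 U) E1 E2 &&
      (bnd w K (Nat.sub x.1 U) l h x.2.1 x.2.2 &&
        go X w S K E1 E2 r x.1 x.2.1 x.2.2)))

/-- the bounds of `S e^(-U/c)`: `(l0, h0)` at `U0` -/
def preOk (w K U0 l0 h0 : ℕ) : List (ℕ × ℕ × ℕ) → ℕ → ℕ → ℕ → Bool
  | [], U, l, h => Nat.beq U U0 && (Nat.ble l0 l && Nat.ble h h0)
  | x :: r, U, l, h => Nat.ble U x.1 && (bnd w K (Nat.sub x.1 U) l h x.2.1 x.2.2 &&
      preOk w K U0 l0 h0 r x.1 x.2.1 x.2.2)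

/-- the checker -/
def chkLines (X w S K1 K2 : ℕ) (pre : List (ℕ × ℕ × ℕ)) (U0 l0 h0 : ℕ) (E1 E2 : List ℤ)
    (pcs : List (ℕ × ℕ × ℕ)) : Bool :=
  Nat.blt 0 w && (Nat.blt 0 S && (Nat.beq E1.length E2.length &&
    (preOk w K1 U0 l0 h0 pre 0 S S && go X w S K2 E1 E2 pcs U0 l0 h0)))

/-! ### polynomials -/

/-- sum -/
def addL : List ℤ → List ℤ → List ℤ
  | [], q => q
  | a :: p, [] => a :: p
  | a :: p, b :: q => (a + b) :: addL p q

/-- multiple -/
def smulL (c : ℤ) : List ℤ → List ℤ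
  | [] => []
  | a :: p => (c * a) :: smulL c p

/-- product -/
def mulL : List ℤ → List ℤ → List ℤ
  | [], _ => []
  | a :: p, q => addL (smulL a q) (0 :: mulL p q)

/-- sum of the absolute values -/
def n1 : List ℤ → ℕ
  | [] => 0
  | a :: p => a.natAbs + n1 p

/-- `(1 + x)^m` -/
def yp : ℕ → List ℤ
  | 0 => [1]
  | m + 1 => mulL [1, 1] (yp m)

/-- `w^N (1 + x)^N p((U + d / (1 + x)) / w)` -/
def qs (w U d : ℕ) : List ℤ → List ℤ
  | [] => []
  | a :: p => addL (smulL (a * (w : ℤ) ^ p.length) (yp p.length)) (mulL [(U : ℤ) + d, U] (qs w U d p))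

/-- `w^N p((U + x) / w)` -/
def st (w U : ℕ) : List ℤ → List ℤ
  | [] => []
  | a :: p => addL [a * (w : ℤ) ^ p.length] (mulL [(U : ℤ), 1] (st w U p))

/-- Taylor polynomial -/
def tq (c d : ℕ) : ℕ → List ℤ
  | 0 => [1]
  | K + 1 => addL (smulL (((K + 1 : ℕ) : ℤ) * c) (mulL [1, 1] (tq c d K))) [(-1) ^ (K + 1) * (d : ℤ) ^ (K + 1)]

section
variable (x : ℝ)

theorem e1_nil : e1 [] x = 0 := rfl
theorem e1_cons (a : ℤ) (p : List ℤ) : e1 (a :: p) x = a + x * e1 p x := rfl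

theorem e1_addL : ∀ p q : List ℤ, e1 (addL p q) x = e1 p x + e1 q x
  | [], q => by simp [addL, e1_nil]
  | a :: p, [] => by simp [addL, e1_nil]
  | a :: p, b :: q => by
    rw [addL, e1_cons, e1_cons, e1_cons, e1_addL p q]
    push_cast
    ring

theorem e1_smulL (c : ℤ) : ∀ p : List ℤ, e1 (smulL c p) x = c * e1 p x
  | [] => by simp [smulL, e1_nil]
  | a :: p => by
    rw [smulL, e1_cons, e1_cons, e1_smulL c p]
    push_cast
    ring

theorem e1_mulL : ∀ p q : List ℤ, e1 (mulL p q) x = e1 p x * e1 q x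
  | [], q => by simp [mulL, e1_nil]
  | a :: p, q => by
    rw [mulL, e1_addL, e1_smulL, e1_cons, e1_cons, e1_mulL p q]
    push_cast
    ring

theorem e1_yp : ∀ m : ℕ, e1 (yp m) x = (1 + x) ^ m
  | 0 => by simp [yp, e1_cons, e1_nil]
  | m + 1 => by
    rw [yp, e1_mulL, e1_yp m, pow_succ]
    simp only [e1_cons, e1_nil]
    push_cast
    ring

theorem n1_addL : ∀ p q : List ℤ, n1 (addL p q) ≤ n1 p + n1 q
  | [], q => by simp [addL, n1]
  | a :: p, [] => by simp [addL, n1]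
  | a :: p, b :: q => by
    rw [addL, n1, n1, n1]
    have h1 := n1_addL p q
    have h2 := Int.natAbs_add_le a b
    omega

theorem n1_smulL (c : ℤ) : ∀ p : List ℤ, n1 (smulL c p) = c.natAbs * n1 p
  | [] => by simp [smulL, n1]
  | a :: p => by
    rw [smulL, n1, n1, n1_smulL c p, Int.natAbs_mul]
    ring

theorem n1_mulL : ∀ p q : List ℤ, n1 (mulL p q) ≤ n1 p * n1 q
  | [], q => by simp [mulL, n1]
  | a :: p, q => by
    have h0 : mulL (a :: p) q = addL (smulL a q) (0 :: mulL p q) := rfl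
    rw [h0, n1]
    have h1 := n1_addL (smulL a q) (0 :: mulL p q)
    rw [n1_smulL, n1] at h1
    have h2 := n1_mulL p q
    have h3 : (a.natAbs + n1 p) * n1 q = a.natAbs * n1 q + n1 p * n1 q := by ring
    rw [h3]
    simp only [Int.natAbs_zero, zero_add] at h1
    omega

theorem n1_yp : ∀ m : ℕ, n1 (yp m) ≤ 2 ^ m
  | 0 => by simp [yp, n1]
  | m + 1 => by
    rw [yp]
    have h1 := n1_mulL [1, 1] (yp m)
    have h2 := n1_yp m
    have h3 : n1 [1, 1] = 2 := rfl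
    rw [h3] at h1
    rw [pow_succ]
    omega

/-! ### the functions of the checker -/

theorem posneg (a : ℤ) : (a : ℝ) = (posP a : ℝ) - negP a := by
  cases a with
  | ofNat n => simp [posP, negP]
  | negSucc n =>
    simp only [posP, negP, Int.cast_negSucc]
    push_cast
    ring

theorem absP_eq (a : ℤ) : absP a = a.natAbs := by
  cases a <;> rfl

theorem hv_cons (f : ℤ → ℕ) (Y V : ℕ) (a : ℤ) (p : List ℤ) :
    hv f Y V (a :: p) = f a * Y ^ p.length + V * hv f Y V p := rfl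

theorem qs_X (w U d X : ℕ) : ∀ p : List ℤ, e1 (qs w U d p) (X : ℝ) =
    (hv posP (Nat.mul w (Nat.succ X)) (Nat.add (Nat.mul U (Nat.succ X)) d) p : ℝ) -
      hv negP (Nat.mul w (Nat.succ X)) (Nat.add (Nat.mul U (Nat.succ X)) d) p
  | [] => by simp [qs, hv, e1_nil]
  | a :: p => by
    have hV : ((Nat.add (Nat.mul U (Nat.succ X)) d : ℕ) : ℝ) = U * (X + 1) + d := by
      have : Nat.add (Nat.mul U (Nat.succ X)) d = U * (X + 1) + d := rfl
      rw [this]
      push_cast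
      rfl
    have hY : ((Nat.mul w (Nat.succ X) : ℕ) : ℝ) = w * (X + 1) := by
      have : Nat.mul w (Nat.succ X) = w * (X + 1) := rfl
      rw [this]
      push_cast
      rfl
    rw [qs, e1_addL, e1_smulL, e1_mulL, e1_yp, qs_X w U d X p, hv_cons, hv_cons]
    simp only [e1_cons, e1_nil]
    push_cast
    rw [hV, hY, posneg a, mul_pow, add_comm (1 : ℝ) (X : ℝ)]
    ring

theorem qs_n1 (w U d : ℕ) : ∀ p : List ℤ,
    n1 (qs w U d p) ≤ hv absP (Nat.mul 2 w) (Nat.add (Nat.mul 2 U) d) p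
  | [] => by simp [qs, n1, hv]
  | a :: p => by
    rw [qs, hv_cons, absP_eq]
    have h1 := n1_addL (smulL (a * (w : ℤ) ^ p.length) (yp p.length))
      (mulL [(U : ℤ) + d, U] (qs w U d p))
    have h2 := n1_mulL [(U : ℤ) + d, U] (qs w U d p)
    have h3 := qs_n1 w U d p
    have h4 : n1 [(U : ℤ) + d, U] = 2 * U + d := by
      simp only [n1]
      omega
    have h5 : n1 (smulL (a * (w : ℤ) ^ p.length) (yp p.length)) ≤
        a.natAbs * (2 * w) ^ p.length := by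
      rw [n1_smulL, Int.natAbs_mul, Int.natAbs_pow, Int.natAbs_natCast, mul_pow]
      have := n1_yp p.length
      calc a.natAbs * w ^ p.length * n1 (yp p.length) ≤ a.natAbs * w ^ p.length * 2 ^ p.length :=
            Nat.mul_le_mul_left _ this
        _ = _ := by ring
    rw [h4] at h2
    have h6 : (2 * U + d) * n1 (qs w U d p) ≤
        (2 * U + d) * hv absP (Nat.mul 2 w) (Nat.add (Nat.mul 2 U) d) p := Nat.mul_le_mul_left _ h3
    have h7 : Nat.mul 2 w = 2 * w := rfl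
    have h8 : Nat.add (Nat.mul 2 U) d = 2 * U + d := rfl
    rw [h7, h8] at h6 ⊢
    omega

theorem qs_r (w U d : ℕ) (hw : 0 < w) {r : ℝ} (hr : 0 ≤ r) : ∀ p : List ℤ,
    ((w : ℝ) * (1 + r)) * e1 (qs w U d p) r =
      ((w : ℝ) * (1 + r)) ^ p.length * e1 p ((U + d / (1 + r)) / w)
  | [] => by simp [qs, e1_nil]
  | a :: p => by
    have hw' : (w : ℝ) ≠ 0 := by positivity
    have hy : (1 + r : ℝ) ≠ 0 := by positivity
    have h := qs_r w U d hw hr p
    rw [qs, e1_addL, e1_smulL, e1_mulL, e1_yp]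
    simp only [e1_cons, e1_nil, List.length_cons]
    push_cast
    have hz : (U : ℝ) + d + r * (U + r * 0) = ((U + d / (1 + r)) / w) * (w * (1 + r)) := by
      field_simp
      ring
    rw [hz]
    have e : (w : ℝ) * (1 + r) * ((a : ℝ) * (w : ℝ) ^ p.length * (1 + r) ^ p.length +
        ((U : ℝ) + d / (1 + r)) / w * (w * (1 + r)) * e1 (qs w U d p) r) =
        (w * (1 + r)) * (a * (w * (1 + r)) ^ p.length) +
          ((U : ℝ) + d / (1 + r)) / w * (w * (1 + r)) * ((w * (1 + r)) * e1 (qs w U d p) r) := by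
      rw [mul_pow]
      ring
    rw [e, h]
    ring

theorem st_X (w U X : ℕ) : ∀ p : List ℤ, e1 (st w U p) (X : ℝ) =
    (hv posP w (Nat.add U X) p : ℝ) - hv negP w (Nat.add U X) p
  | [] => by simp [st, hv, e1_nil]
  | a :: p => by
    have hV : ((Nat.add U X : ℕ) : ℝ) = U + X := by
      have : Nat.add U X = U + X := rfl
      rw [this]
      push_cast
      rfl
    rw [st, e1_addL, e1_mulL, st_X w U X p, hv_cons, hv_cons]
    simp only [e1_cons, e1_nil]
    push_cast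
    rw [hV, posneg a]
    ring

theorem st_n1 (w U : ℕ) : ∀ p : List ℤ, n1 (st w U p) ≤ hv absP w (Nat.succ U) p
  | [] => by simp [st, n1, hv]
  | a :: p => by
    rw [st, hv_cons, absP_eq]
    have h1 := n1_addL [a * (w : ℤ) ^ p.length] (mulL [(U : ℤ), 1] (st w U p))
    have h2 := n1_mulL [(U : ℤ), 1] (st w U p)
    have h3 := st_n1 w U p
    have h4 : n1 [(U : ℤ), 1] = U + 1 := by
      simp only [n1]
      omega
    have h5 : n1 [a * (w : ℤ) ^ p.length] = a.natAbs * w ^ p.length := by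
      simp only [n1]
      rw [Int.natAbs_mul, Int.natAbs_pow, Int.natAbs_natCast]
      rfl
    rw [h4] at h2
    rw [h5] at h1
    have h6 : (U + 1) * n1 (st w U p) ≤ (U + 1) * hv absP w (Nat.succ U) p :=
      Nat.mul_le_mul_left _ h3
    have h7 : Nat.succ U = U + 1 := rfl
    rw [h7] at h6 ⊢
    omega

theorem st_r (w U : ℕ) (hw : 0 < w) (r : ℝ) : ∀ p : List ℤ,
    (w : ℝ) * e1 (st w U p) r = (w : ℝ) ^ p.length * e1 p ((U + r) / w)
  | [] => by simp [st, e1_nil]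
  | a :: p => by
    have hw' : (w : ℝ) ≠ 0 := by positivity
    have h := st_r w U hw r p
    rw [st, e1_addL, e1_mulL]
    simp only [e1_cons, e1_nil, List.length_cons]
    push_cast
    have hz : (U : ℝ) + r * (1 + r * 0) = ((U + r) / w) * w := by
      field_simp
      ring
    rw [hz]
    have e : (w : ℝ) * ((a : ℝ) * (w : ℝ) ^ p.length + r * 0 +
        ((U : ℝ) + r) / w * w * e1 (st w U p) r) =
        w * (a * w ^ p.length) + ((U : ℝ) + r) / w * w * (w * e1 (st w U p) r) := by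
      ring
    rw [e, h]
    ring

theorem tp_succ (c d Y s K : ℕ) : tp c d Y s (K + 1) = (K + 1) * c * Y * tp c d Y s K +
    cond (Nat.beq (Nat.mod (K + 1) 2) s) (d ^ (K + 1)) 0 := rfl

theorem fc_succ (c K : ℕ) : fc c (K + 1) = (K + 1) * c * fc c K := rfl

theorem fc_cast (c : ℕ) : ∀ K : ℕ, ((fc c K : ℕ) : ℝ) = (c : ℝ) ^ K * K.factorial
  | 0 => by simp [fc]
  | K + 1 => by
    rw [fc_succ]
    push_cast
    rw [fc_cast c K, Nat.factorial_succ]
    push_cast
    ring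

theorem fc_pos {c : ℕ} (hc : 0 < c) (K : ℕ) : (0 : ℝ) < ((fc c K : ℕ) : ℝ) := by
  rw [fc_cast]
  positivity

theorem sgn_eq (K d : ℕ) : ((cond (Nat.beq (Nat.mod (K + 1) 2) 0) (d ^ (K + 1)) 0 : ℕ) : ℝ) -
    ((cond (Nat.beq (Nat.mod (K + 1) 2) 1) (d ^ (K + 1)) 0 : ℕ) : ℝ) =
      (-1) ^ (K + 1) * (d : ℝ) ^ (K + 1) := by
  have hm : Nat.mod (K + 1) 2 = (K + 1) % 2 := rfl
  rw [hm]
  rcases Nat.even_or_odd (K + 1) with hK | hK
  · rw [Nat.even_iff.1 hK, hK.neg_one_pow]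
    have h1 : Nat.beq 0 0 = true := rfl
    have h2 : Nat.beq 0 1 = false := rfl
    rw [h1, h2]
    simp
  · rw [Nat.odd_iff.1 hK, hK.neg_one_pow]
    have h1 : Nat.beq 1 0 = false := rfl
    have h2 : Nat.beq 1 1 = true := rfl
    rw [h1, h2]
    simp

theorem sgn_sum (K d : ℕ) : cond (Nat.beq (Nat.mod (K + 1) 2) 0) (d ^ (K + 1)) 0 +
    cond (Nat.beq (Nat.mod (K + 1) 2) 1) (d ^ (K + 1)) 0 = d ^ (K + 1) := by
  have hm : Nat.mod (K + 1) 2 = (K + 1) % 2 := rfl
  rw [hm]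
  rcases Nat.mod_two_eq_zero_or_one (K + 1) with hK | hK
  · rw [hK]
    have h1 : Nat.beq 0 0 = true := rfl
    have h2 : Nat.beq 0 1 = false := rfl
    rw [h1, h2]
    simp
  · rw [hK]
    have h1 : Nat.beq 1 0 = false := rfl
    have h2 : Nat.beq 1 1 = true := rfl
    rw [h1, h2]
    simp

theorem tq_X (c d X : ℕ) : ∀ K : ℕ, e1 (tq c d K) (X : ℝ) =
    (tp c d (Nat.succ X) 0 K : ℝ) - tp c d (Nat.succ X) 1 K
  | 0 => by simp [tq, tp, e1_cons, e1_nil]
  | K + 1 => by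
    rw [tq, e1_addL, e1_smulL, e1_mulL, tq_X c d X K, tp_succ, tp_succ]
    simp only [e1_cons, e1_nil]
    have := sgn_eq K d
    push_cast at this ⊢
    linear_combination (-1 : ℝ) * this

theorem tq_n1 (c d : ℕ) : ∀ K : ℕ, n1 (tq c d K) ≤ Nat.add (tp c d 2 0 K) (tp c d 2 1 K)
  | 0 => by simp [tq, tp, n1]
  | K + 1 => by
    rw [tq, tp_succ, tp_succ]
    have h1 := n1_addL (smulL (((K + 1 : ℕ) : ℤ) * c) (mulL [1, 1] (tq c d K)))
      [(-1) ^ (K + 1) * (d : ℤ) ^ (K + 1)]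
    have h2 : n1 (smulL (((K + 1 : ℕ) : ℤ) * c) (mulL [1, 1] (tq c d K))) ≤
        (K + 1) * c * (2 * (tp c d 2 0 K + tp c d 2 1 K)) := by
      rw [n1_smulL, Int.natAbs_mul, Int.natAbs_natCast, Int.natAbs_natCast]
      apply Nat.mul_le_mul_left
      have h3 := n1_mulL [1, 1] (tq c d K)
      have h4 : n1 [1, 1] = 2 := rfl
      rw [h4] at h3
      have h5 := tq_n1 c d K
      have h6 : Nat.add (tp c d 2 0 K) (tp c d 2 1 K) = tp c d 2 0 K + tp c d 2 1 K := rfl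
      rw [h6] at h5
      omega
    have h7 : n1 [(-1) ^ (K + 1) * (d : ℤ) ^ (K + 1)] = d ^ (K + 1) := by
      simp [n1, Int.natAbs_mul, Int.natAbs_pow]
    have h8 := sgn_sum K d
    have h9 : ∀ a b : ℕ, Nat.add a b = a + b := fun _ _ => rfl
    rw [h9]
    rw [h7] at h1
    have h10 : (K + 1) * c * (2 * (tp c d 2 0 K + tp c d 2 1 K)) =
        (K + 1) * c * 2 * tp c d 2 0 K + (K + 1) * c * 2 * tp c d 2 1 K := by ring
    rw [h10] at h2
    omega

/-- Taylor polynomial of `e^(-x)` -/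
noncomputable def ts (K : ℕ) (x : ℝ) : ℝ := ∑ k ∈ Finset.range (K + 1), (-x) ^ k / (k.factorial : ℝ)

theorem ts_succ (K : ℕ) (x : ℝ) :
    ts (K + 1) x = ts K x + (-1) ^ (K + 1) * x ^ (K + 1) / ((K + 1).factorial : ℝ) := by
  unfold ts
  rw [Finset.sum_range_succ _ (K + 1), neg_pow]

theorem tq_r (c d : ℕ) (hc : 0 < c) {r : ℝ} (hr : 0 ≤ r) : ∀ K : ℕ, e1 (tq c d K) r =
    (fc c K : ℝ) * (1 + r) ^ K * ts K (d / (1 + r) / c)
  | 0 => by simp [tq, fc, ts, e1_cons, e1_nil]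
  | K + 1 => by
    have hc' : (c : ℝ) ≠ 0 := by positivity
    have hy : (1 + r : ℝ) ≠ 0 := by positivity
    rw [tq, e1_addL, e1_smulL, e1_mulL, tq_r c d hc hr K, fc_succ, ts_succ]
    simp only [e1_cons, e1_nil]
    push_cast
    rw [fc_cast, Nat.factorial_succ]
    push_cast
    have hf : (K.factorial : ℝ) ≠ 0 := by positivity
    have hk : ((K : ℝ) + 1) ≠ 0 := by positivity
    rw [div_pow, div_pow]
    field_simp
    ring

theorem tp_val (c d Y : ℕ) (hc : 0 < c) (hY : 0 < Y) : ∀ K : ℕ,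
    (tp c d Y 0 K : ℝ) - tp c d Y 1 K = (fc c K : ℝ) * (Y : ℝ) ^ K * ts K (d / Y / c)
  | 0 => by simp [tp, fc, ts]
  | K + 1 => by
    have hc' : (c : ℝ) ≠ 0 := by positivity
    have hy : (Y : ℝ) ≠ 0 := by positivity
    rw [tp_succ, tp_succ, fc_succ, ts_succ]
    have h1 := tp_val c d Y hc hY K
    have h2 := sgn_eq K d
    generalize (cond (Nat.beq (Nat.mod (K + 1) 2) 0) (d ^ (K + 1)) 0) = C0 at h2 ⊢
    generalize (cond (Nat.beq (Nat.mod (K + 1) 2) 1) (d ^ (K + 1)) 0) = C1 at h2 ⊢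
    push_cast
    have h3 : ((K : ℝ) + 1) * c * Y * (tp c d Y 0 K : ℝ) + (C0 : ℝ) -
        (((K : ℝ) + 1) * c * Y * (tp c d Y 1 K : ℝ) + (C1 : ℝ)) =
        ((K : ℝ) + 1) * c * Y * ((tp c d Y 0 K : ℝ) - tp c d Y 1 K) +
          ((-1) ^ (K + 1) * (d : ℝ) ^ (K + 1)) := by
      rw [← h2]
      ring
    rw [h3, h1, fc_cast, Nat.factorial_succ]
    push_cast
    have hf : (K.factorial : ℝ) ≠ 0 := by positivity
    have hk : ((K : ℝ) + 1) ≠ 0 := by positivity
    rw [div_pow, div_pow]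
    field_simp
    ring

theorem ts_deriv (K : ℕ) (x : ℝ) : HasDerivAt (ts (K + 1)) (-ts K x) x := by
  induction K with
  | zero =>
    have h : ts 1 = fun x : ℝ => 1 - x := by
      funext x
      simp [ts, Finset.sum_range_succ]
      ring
    have h0 : ts 0 x = 1 := by simp [ts]
    rw [h, h0]
    simpa using (hasDerivAt_id x).const_sub 1
  | succ K ih =>
    have h : ts (K + 1 + 1) = fun x : ℝ => ts (K + 1) x + (-x) ^ (K + 2) / ((K + 2).factorial : ℝ) := by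
      funext x
      unfold ts
      rw [Finset.sum_range_succ _ (K + 2)]
    have h2 : ts (K + 1) x = ts K x + (-x) ^ (K + 1) / ((K + 1).factorial : ℝ) := by
      unfold ts
      rw [Finset.sum_range_succ]
    rw [h, h2]
    have h3 : HasDerivAt (fun x : ℝ => (-x) ^ (K + 2) / ((K + 2).factorial : ℝ))
        (((K + 2 : ℕ) : ℝ) * (-x) ^ (K + 1) * (-1) / ((K + 2).factorial : ℝ)) x := by
      have := ((hasDerivAt_neg x).pow (K + 2)).div_const ((K + 2).factorial : ℝ)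
      simpa using this
    have h4 := ih.add h3
    refine HasDerivAt.congr_deriv h4 ?_
    rw [Nat.factorial_succ (K + 1)]
    push_cast
    have hf : ((K + 1).factorial : ℝ) ≠ 0 := by positivity
    have hk' : ((K : ℝ) + 1 + 1) ≠ 0 := by positivity
    field_simp
    ring

theorem ts_sign (K : ℕ) : ∀ x : ℝ, 0 ≤ x → 0 ≤ (-1) ^ K * (ts K x - Real.exp (-x)) := by
  induction K with
  | zero =>
    intro x hx
    have h0 : ts 0 x = 1 := by simp [ts]
    rw [h0, pow_zero, one_mul, sub_nonneg]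
    exact Real.exp_le_one_iff.2 (by linarith)
  | succ K ih =>
    intro x hx
    set f : ℝ → ℝ := fun x => (-1) ^ (K + 1) * (ts (K + 1) x - Real.exp (-x)) with hf
    have hd : ∀ x : ℝ, HasDerivAt f ((-1) ^ K * (ts K x - Real.exp (-x))) x := by
      intro x
      have h1 := (ts_deriv K x).sub ((hasDerivAt_neg x).exp)
      have h2 := h1.const_mul ((-1 : ℝ) ^ (K + 1))
      refine HasDerivAt.congr_deriv h2 ?_
      rw [pow_succ]
      ring
    have hm : MonotoneOn f (Set.Ici 0) := by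
      apply monotoneOn_of_deriv_nonneg (convex_Ici 0)
      · exact fun x _ => (hd x).continuousAt.continuousWithinAt
      · exact fun x _ => (hd x).differentiableAt.differentiableWithinAt
      · intro x hx
        rw [interior_Ici] at hx
        rw [(hd x).deriv]
        exact ih x (le_of_lt hx)
    have h0 : f 0 = 0 := by
      have : ts (K + 1) 0 = 1 := by
        unfold ts
        rw [Finset.sum_range_succ']
        simp
      simp [hf, this]
    have := hm (Set.mem_Ici.2 le_rfl) (Set.mem_Ici.2 hx) hx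
    rw [h0] at this
    exact this

theorem ts_up (K : ℕ) {x : ℝ} (hx : 0 ≤ x) : Real.exp (-x) ≤ ts (2 * K) x := by
  have h := ts_sign (2 * K) x hx
  rw [(even_two_mul K).neg_one_pow] at h
  linarith

theorem ts_lo (K : ℕ) {x : ℝ} (hx : 0 ≤ x) : ts (2 * K + 1) x ≤ Real.exp (-x) := by
  have h := ts_sign (2 * K + 1) x hx
  rw [(odd_two_mul_add_one K).neg_one_pow] at h
  linarith

/-! ### signs of coefficients from one value -/

/-- value at an integer -/
def evZ (x : ℤ) : List ℤ → ℤ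
  | [] => 0
  | a :: p => a + x * evZ x p

theorem evZ_e1 (u : ℤ) : ∀ p : List ℤ, ((evZ u p : ℤ) : ℝ) = e1 p u
  | [] => by simp [evZ, e1_nil]
  | a :: p => by
    rw [evZ, e1_cons, ← evZ_e1 u p]
    push_cast
    rfl

theorem zero_of_dvd {a m X : ℤ} (h : a = X * m) (h1 : |a| < X) : a = 0 ∧ m = 0 := by
  have hX : 0 < X := lt_of_le_of_lt (abs_nonneg a) h1
  have hm : m = 0 := by
    by_contra hm
    have h2 : 1 ≤ |m| := Int.one_le_abs hm
    have h3 : |a| = X * |m| := by rw [h, abs_mul, abs_of_pos hX]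
    nlinarith
  exact ⟨by rw [h, hm, mul_zero], hm⟩

theorem uniq (X : ℕ) : ∀ (Q : List ℤ) (f D : ℕ), 2 * n1 Q < X → dgt X f D = true →
    evZ X Q = -(D : ℤ) → ∀ a ∈ Q, a ≤ 0
  | [], _, _, _, _, _ => by simp
  | a :: Q, f, D, hX, hd, he => by
    have hn : 2 * a.natAbs + 2 * n1 Q < X := by
      have : n1 (a :: Q) = a.natAbs + n1 Q := rfl
      omega
    have ha : |a| = (a.natAbs : ℤ) := Int.abs_eq_natAbs a
    have he' : a + X * evZ X Q = -(D : ℤ) := he
    cases f with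
    | zero =>
      have hD : D = 0 := Nat.eq_of_beq_eq_true hd
      subst hD
      have h1 : a = X * (-(evZ X Q)) := by
        push_cast at he'
        linarith
      have h2 := zero_of_dvd h1 (by rw [ha]; omega)
      intro b hb
      rcases List.mem_cons.1 hb with rfl | hb
      · exact h2.1.le
      · exact uniq X Q 0 0 (by omega) hd (by push_cast; linarith [h2.2]) b hb
    | succ f =>
      rw [dgt, Bool.and_eq_true] at hd
      have h1 : 2 * (D % X) < X := by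
        have := hd.1
        have h' : Nat.blt (2 * (D % X)) X = true := this
        simpa [Nat.blt_eq] using h'
      have h2 : D % X + X * (D / X) = D := Nat.mod_add_div D X
      have h2' : (D : ℤ) = (D % X : ℕ) + X * (D / X : ℕ) := by exact_mod_cast h2.symm
      have h3 : a + (D % X : ℕ) = X * (-(evZ X Q) - (D / X : ℕ)) := by
        have : a + (X : ℤ) * evZ X Q = -((D % X : ℕ) + X * (D / X : ℕ) : ℤ) := by rw [← h2']; exact he'
        linear_combination this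
      have h4 : |a + ((D % X : ℕ) : ℤ)| < X := by
        have h5 := abs_add_le a ((D % X : ℕ) : ℤ)
        have h6 : |((D % X : ℕ) : ℤ)| = ((D % X : ℕ) : ℤ) := abs_of_nonneg (by positivity)
        rw [ha, h6] at h5
        have h7 : ((a.natAbs : ℕ) : ℤ) + ((D % X : ℕ) : ℤ) < X := by
          have : a.natAbs + D % X < X := by omega
          exact_mod_cast this
        linarith
      have h8 := zero_of_dvd h3 h4
      intro b hb
      rcases List.mem_cons.1 hb with rfl | hb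
      · have := h8.1
        have h9 : (0 : ℤ) ≤ ((D % X : ℕ) : ℤ) := by positivity
        linarith
      · have hq : evZ X Q = -((D / X : ℕ) : ℤ) := by linarith [h8.2]
        exact uniq X Q f (D / X) (by omega) hd.2 hq b hb

theorem np_e1 {r : ℝ} (hr : 0 ≤ r) : ∀ {Q : List ℤ}, (∀ a ∈ Q, a ≤ 0) → e1 Q r ≤ 0
  | [], _ => le_refl _
  | a :: Q, h => by
    have h1 : (a : ℝ) ≤ 0 := by exact_mod_cast h a (List.mem_cons_self ..)
    have h2 := np_e1 hr (fun b hb => h b (List.mem_cons_of_mem _ hb))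
    rw [e1_cons]
    nlinarith

theorem chkNeg_sound {X f B P N : ℕ} (h : chkNeg X f B P N = true) {Q : List ℤ} (hB : n1 Q ≤ B)
    (hv : e1 Q (X : ℝ) = (P : ℝ) - N) {r : ℝ} (hr : 0 ≤ r) : e1 Q r ≤ 0 := by
  rw [chkNeg, Bool.and_eq_true, Bool.and_eq_true] at h
  have h1 : 2 * B < X := by
    have h' : Nat.blt (2 * B) X = true := h.1
    simpa [Nat.blt_eq] using h'
  have h2 : P ≤ N := Nat.le_of_ble_eq_true h.2.1
  apply np_e1 hr
  apply uniq X Q f (N - P) (by omega) h.2.2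
  have h3 : ((evZ (X : ℤ) Q : ℤ) : ℝ) = ((-((N - P : ℕ) : ℤ) : ℤ) : ℝ) := by
    rw [evZ_e1]
    push_cast [Nat.cast_sub h2]
    rw [hv]
    ring
  exact_mod_cast h3

theorem e1_cont (p : List ℤ) : Continuous fun t : ℝ => e1 p t := by
  induction p with
  | nil => exact continuous_const
  | cons a p ih => exact continuous_const.add (continuous_id.mul ih)

theorem ts_cont (K : ℕ) : Continuous fun t : ℝ => ts K t := by
  unfold ts
  fun_prop

theorem chkP_sound {X w S K v U d : ℕ} {E1 E2 : List ℤ} (h : chkP X w S K v U d E1 E2 = true)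
    (hw : 0 < w) (hlen : E1.length = E2.length) (hd : 0 < d) {t : ℝ} (h0 : 0 ≤ t) (h1 : t ≤ d) :
    S * e1 E1 ((U + t) / w) + v * ts K (t / ((2 * w : ℕ) : ℝ)) * e1 E2 ((U + t) / w) ≤ 0 := by
  have hd' : (0 : ℝ) < d := by exact_mod_cast hd
  have hw' : (0 : ℝ) < w := by exact_mod_cast hw
  have hc : 0 < 2 * w := by omega
  have key : ∀ t : ℝ, t ∈ Set.Ioc (0 : ℝ) d → t ∈ {t : ℝ | S * e1 E1 ((U + t) / w) +
      v * ts K (t / ((2 * w : ℕ) : ℝ)) * e1 E2 ((U + t) / w) ≤ 0} := by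
    intro t ht
    set r : ℝ := (d : ℝ) / t - 1 with hr
    have hr0 : 0 ≤ r := by
      have := (one_le_div ht.1).2 ht.2
      linarith
    have hy : 1 + r = d / t := by rw [hr]; ring
    have hdt : (d : ℝ) / (1 + r) = t := by
      rw [hy]
      have := ht.1.ne'
      field_simp
    set Q : List ℤ := addL (smulL ((S : ℤ) * fc (2 * w) K) (mulL (yp K) (qs w U d E1)))
      (smulL v (mulL (tq (2 * w) d K) (qs w U d E2))) with hQ
    have hn : n1 Q ≤ (Nat.add (Nat.mul (Nat.mul (Nat.mul S (fc (Nat.mul 2 w) K)) (Nat.pow 2 K))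
        (hv absP (Nat.mul 2 w) (Nat.add (Nat.mul 2 U) d) E1))
      (Nat.mul v (Nat.mul (Nat.add (tp (Nat.mul 2 w) d 2 0 K) (tp (Nat.mul 2 w) d 2 1 K))
        (hv absP (Nat.mul 2 w) (Nat.add (Nat.mul 2 U) d) E2)))) := by
      rw [hQ]
      refine (n1_addL _ _).trans (Nat.add_le_add ?_ ?_)
      · rw [n1_smulL]
        have q1 : ((S : ℤ) * fc (2 * w) K).natAbs = S * fc (2 * w) K := by
          rw [Int.natAbs_mul, Int.natAbs_natCast, Int.natAbs_natCast]
        rw [q1]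
        have q2 : n1 (mulL (yp K) (qs w U d E1)) ≤
            2 ^ K * hv absP (Nat.mul 2 w) (Nat.add (Nat.mul 2 U) d) E1 :=
          (n1_mulL _ _).trans (Nat.mul_le_mul (n1_yp K) (qs_n1 w U d E1))
        have q3 : Nat.mul (Nat.mul (Nat.mul S (fc (Nat.mul 2 w) K)) (Nat.pow 2 K))
          (hv absP (Nat.mul 2 w) (Nat.add (Nat.mul 2 U) d) E1) =
          S * fc (2 * w) K * (2 ^ K * hv absP (Nat.mul 2 w) (Nat.add (Nat.mul 2 U) d) E1) := by
          generalize hv absP (Nat.mul 2 w) (Nat.add (Nat.mul 2 U) d) E1 = z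
          change S * fc (2 * w) K * 2 ^ K * z = S * fc (2 * w) K * (2 ^ K * z)
          ring
        rw [q3]
        exact Nat.mul_le_mul_left _ q2
      · rw [n1_smulL, Int.natAbs_natCast]
        exact Nat.mul_le_mul_left _ ((n1_mulL _ _).trans
          (Nat.mul_le_mul (tq_n1 (2 * w) d K) (qs_n1 w U d E2)))
    have hval : e1 Q (X : ℝ) = ((Nat.add (Nat.mul (Nat.mul (Nat.mul S (fc (Nat.mul 2 w) K))
          (Nat.pow (Nat.succ X) K))
          (hv posP (Nat.mul w (Nat.succ X)) (Nat.add (Nat.mul U (Nat.succ X)) d) E1))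
        (Nat.mul v (Nat.add
          (Nat.mul (tp (Nat.mul 2 w) d (Nat.succ X) 0 K)
            (hv posP (Nat.mul w (Nat.succ X)) (Nat.add (Nat.mul U (Nat.succ X)) d) E2))
          (Nat.mul (tp (Nat.mul 2 w) d (Nat.succ X) 1 K)
            (hv negP (Nat.mul w (Nat.succ X)) (Nat.add (Nat.mul U (Nat.succ X)) d) E2)))) : ℕ) : ℝ) -
        ((Nat.add (Nat.mul (Nat.mul (Nat.mul S (fc (Nat.mul 2 w) K)) (Nat.pow (Nat.succ X) K))
          (hv negP (Nat.mul w (Nat.succ X)) (Nat.add (Nat.mul U (Nat.succ X)) d) E1))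
        (Nat.mul v (Nat.add
          (Nat.mul (tp (Nat.mul 2 w) d (Nat.succ X) 0 K)
            (hv negP (Nat.mul w (Nat.succ X)) (Nat.add (Nat.mul U (Nat.succ X)) d) E2))
          (Nat.mul (tp (Nat.mul 2 w) d (Nat.succ X) 1 K)
            (hv posP (Nat.mul w (Nat.succ X)) (Nat.add (Nat.mul U (Nat.succ X)) d) E2)))) : ℕ) : ℝ) := by
      have m1 : ∀ a b : ℕ, ((Nat.mul a b : ℕ) : ℝ) = (a : ℝ) * b := fun a b => Nat.cast_mul a b
      have m2 : ∀ a b : ℕ, ((Nat.add a b : ℕ) : ℝ) = (a : ℝ) + b := fun a b => Nat.cast_add a b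
      have m3 : ∀ a b : ℕ, ((Nat.pow a b : ℕ) : ℝ) = (a : ℝ) ^ b := fun a b => Nat.cast_pow a b
      have m4 : ((Nat.succ X : ℕ) : ℝ) = 1 + (X : ℝ) := by push_cast; ring
      rw [hQ, e1_addL, e1_smulL, e1_smulL, e1_mulL, e1_mulL, e1_yp, qs_X, qs_X, tq_X]
      generalize hv posP (Nat.mul w (Nat.succ X)) (Nat.add (Nat.mul U (Nat.succ X)) d) E1 = AP
      generalize hv negP (Nat.mul w (Nat.succ X)) (Nat.add (Nat.mul U (Nat.succ X)) d) E1 = AN
      generalize hv posP (Nat.mul w (Nat.succ X)) (Nat.add (Nat.mul U (Nat.succ X)) d) E2 = BP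
      generalize hv negP (Nat.mul w (Nat.succ X)) (Nat.add (Nat.mul U (Nat.succ X)) d) E2 = BN
      have m5 : Nat.mul 2 w = 2 * w := rfl
      rw [m5]
      generalize tp (2 * w) d (Nat.succ X) 0 K = TP
      generalize tp (2 * w) d (Nat.succ X) 1 K = TN
      generalize fc (2 * w) K = F
      simp only [m1, m2, m3, m4]
      push_cast
      ring
    have hle := chkNeg_sound h hn hval hr0
    rw [hQ, e1_addL, e1_smulL, e1_smulL, e1_mulL, e1_mulL, e1_yp, tq_r (2 * w) d hc hr0, hdt] at hle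
    have g1 := qs_r w U d hw hr0 E1
    have g2 := qs_r w U d hw hr0 E2
    rw [hdt] at g1 g2
    rw [← hlen] at g2
    have hy0 : (0 : ℝ) < 1 + r := by linarith
    have hF := fc_pos hc K
    have hpos : (0 : ℝ) < (fc (2 * w) K : ℝ) * (1 + r) ^ K * ((w : ℝ) * (1 + r)) ^ E1.length := by
      positivity
    have hfin : ((fc (2 * w) K : ℝ) * (1 + r) ^ K * ((w : ℝ) * (1 + r)) ^ E1.length) *
        (S * e1 E1 ((U + t) / w) + v * ts K (t / ((2 * w : ℕ) : ℝ)) * e1 E2 ((U + t) / w)) ≤ 0 := by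
      have e : ((fc (2 * w) K : ℝ) * (1 + r) ^ K * ((w : ℝ) * (1 + r)) ^ E1.length) *
          (S * e1 E1 ((U + t) / w) + v * ts K (t / ((2 * w : ℕ) : ℝ)) * e1 E2 ((U + t) / w)) =
          ((w : ℝ) * (1 + r)) * ((((S : ℤ) * fc (2 * w) K : ℤ) : ℝ) * ((1 + r) ^ K * e1 (qs w U d E1) r) +
            ((v : ℤ) : ℝ) * ((fc (2 * w) K : ℝ) * (1 + r) ^ K * ts K (t / ((2 * w : ℕ) : ℝ)) *
              e1 (qs w U d E2) r)) := by
        push_cast at g1 g2 ⊢
        linear_combination (-(S : ℝ) * (fc (2 * w) K : ℝ) * (1 + r) ^ K) * g1 -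
          ((v : ℝ) * (fc (2 * w) K : ℝ) * (1 + r) ^ K * ts K (t / (2 * w))) * g2
      rw [e]
      exact mul_nonpos_of_nonneg_of_nonpos (by positivity) hle
    by_contra hcon
    have hcon' : 0 < S * e1 E1 ((U + t) / w) +
        v * ts K (t / ((2 * w : ℕ) : ℝ)) * e1 E2 ((U + t) / w) := not_le.1 hcon
    have := mul_pos hpos hcon'
    linarith
  have hcont : Continuous fun t : ℝ => S * e1 E1 ((U + t) / w) +
      v * ts K (t / ((2 * w : ℕ) : ℝ)) * e1 E2 ((U + t) / w) := by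
    have c1 : Continuous fun t : ℝ => ((U : ℝ) + t) / w := by fun_prop
    have c2 := (e1_cont E1).comp c1
    have c3 := (e1_cont E2).comp c1
    have c4 : Continuous fun t : ℝ => ts K (t / ((2 * w : ℕ) : ℝ)) :=
      (ts_cont K).comp (continuous_id.div_const _)
    exact (continuous_const.mul c2).add ((continuous_const.mul c4).mul c3)
  have hcl : IsClosed {t : ℝ | S * e1 E1 ((U + t) / w) +
      v * ts K (t / ((2 * w : ℕ) : ℝ)) * e1 E2 ((U + t) / w) ≤ 0} := isClosed_le hcont continuous_const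
  have hsub := closure_minimal key hcl
  rw [closure_Ioc hd'.ne] at hsub
  exact hsub ⟨h0, h1⟩

theorem chkT_sound {X w S v U : ℕ} {E1 E2 : List ℤ} (h : chkT X w S v U E1 E2 = true)
    (hw : 0 < w) (hlen : E1.length = E2.length) {t : ℝ} (h0 : 0 ≤ t) :
    S * e1 E1 ((U + t) / w) + v * e1 E2 ((U + t) / w) ≤ 0 := by
  have hw' : (0 : ℝ) < w := by exact_mod_cast hw
  set Q : List ℤ := addL (smulL S (st w U E1)) (smulL v (st w U E2)) with hQ
  have hn : n1 Q ≤ Nat.add (Nat.mul S (hv absP w (Nat.succ U) E1))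
      (Nat.mul v (hv absP w (Nat.succ U) E2)) := by
    rw [hQ]
    refine (n1_addL _ _).trans (Nat.add_le_add ?_ ?_)
    · rw [n1_smulL, Int.natAbs_natCast]
      exact Nat.mul_le_mul_left _ (st_n1 w U E1)
    · rw [n1_smulL, Int.natAbs_natCast]
      exact Nat.mul_le_mul_left _ (st_n1 w U E2)
  have hval : e1 Q (X : ℝ) =
      ((Nat.add (Nat.mul S (hv posP w (Nat.add U X) E1)) (Nat.mul v (hv posP w (Nat.add U X) E2)) : ℕ) : ℝ) -
      ((Nat.add (Nat.mul S (hv negP w (Nat.add U X) E1)) (Nat.mul v (hv negP w (Nat.add U X) E2)) : ℕ) : ℝ) := by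
    have m1 : ∀ a b : ℕ, ((Nat.mul a b : ℕ) : ℝ) = (a : ℝ) * b := fun a b => Nat.cast_mul a b
    have m2 : ∀ a b : ℕ, ((Nat.add a b : ℕ) : ℝ) = (a : ℝ) + b := fun a b => Nat.cast_add a b
    rw [hQ, e1_addL, e1_smulL, e1_smulL, st_X, st_X, m2, m2, m1, m1, m1, m1]
    push_cast
    ring
  have hle := chkNeg_sound h hn hval h0
  rw [hQ, e1_addL, e1_smulL, e1_smulL] at hle
  have g1 := st_r w U hw t E1
  have g2 := st_r w U hw t E2
  rw [← hlen] at g2
  have hfin : (w : ℝ) ^ E1.length * (S * e1 E1 ((U + t) / w) + v * e1 E2 ((U + t) / w)) ≤ 0 := by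
    have e : (w : ℝ) ^ E1.length * (S * e1 E1 ((U + t) / w) + v * e1 E2 ((U + t) / w)) =
        w * (((S : ℤ) : ℝ) * e1 (st w U E1) t + ((v : ℤ) : ℝ) * e1 (st w U E2) t) := by
      push_cast
      linear_combination (-(S : ℝ)) * g1 - (v : ℝ) * g2
    rw [e]
    exact mul_nonpos_of_nonneg_of_nonpos hw'.le hle
  by_contra hcon
  have := mul_pos (pow_pos hw' E1.length) (not_le.1 hcon)
  linarith

theorem bnd_sound {w K : ℕ} (hw : 0 < w) {d l h l' h' : ℕ} (hb : bnd w K d l h l' h' = true) {X : ℝ}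
    (hl : (l : ℝ) ≤ X) (hh : X ≤ h) :
    (l' : ℝ) ≤ X * Real.exp (-(d : ℝ) / ((2 * w : ℕ) : ℝ)) ∧
      X * Real.exp (-(d : ℝ) / ((2 * w : ℕ) : ℝ)) ≤ h' := by
  have hc : 0 < 2 * w := by omega
  rw [bnd, Bool.and_eq_true] at hb
  have h1 : l' * fc (2 * w) (2 * K + 1) + l * tp (2 * w) d 1 1 (2 * K + 1) ≤
      l * tp (2 * w) d 1 0 (2 * K + 1) := Nat.le_of_ble_eq_true hb.1
  have h2 : h * tp (2 * w) d 1 0 (2 * K) ≤ h' * fc (2 * w) (2 * K) + h * tp (2 * w) d 1 1 (2 * K) :=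
    Nat.le_of_ble_eq_true hb.2
  have h1' : (l' : ℝ) * fc (2 * w) (2 * K + 1) + l * tp (2 * w) d 1 1 (2 * K + 1) ≤
      l * tp (2 * w) d 1 0 (2 * K + 1) := by exact_mod_cast h1
  have h2' : (h : ℝ) * tp (2 * w) d 1 0 (2 * K) ≤
      h' * fc (2 * w) (2 * K) + h * tp (2 * w) d 1 1 (2 * K) := by exact_mod_cast h2
  have v1 := tp_val (2 * w) d 1 hc one_pos (2 * K + 1)
  have v2 := tp_val (2 * w) d 1 hc one_pos (2 * K)
  rw [Nat.cast_one, one_pow, mul_one, div_one] at v1 v2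
  have hF1 := fc_pos hc (2 * K + 1)
  have hF2 := fc_pos hc (2 * K)
  have hx : (0 : ℝ) ≤ (d : ℝ) / ((2 * w : ℕ) : ℝ) := by positivity
  have e1 := ts_lo K hx
  have e2 := ts_up K hx
  have e3 : -((d : ℝ) / ((2 * w : ℕ) : ℝ)) = -(d : ℝ) / ((2 * w : ℕ) : ℝ) := by ring
  rw [e3] at e1 e2
  have hl0 : (0 : ℝ) ≤ l := Nat.cast_nonneg l
  have hE := Real.exp_pos (-(d : ℝ) / ((2 * w : ℕ) : ℝ))
  have h3 : (l' : ℝ) ≤ l * ts (2 * K + 1) ((d : ℝ) / ((2 * w : ℕ) : ℝ)) := by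
    have q : (l' : ℝ) * (fc (2 * w) (2 * K + 1) : ℝ) ≤
      (l * ts (2 * K + 1) ((d : ℝ) / ((2 * w : ℕ) : ℝ))) * (fc (2 * w) (2 * K + 1) : ℝ) := by
      have : (l * ts (2 * K + 1) ((d : ℝ) / ((2 * w : ℕ) : ℝ))) * (fc (2 * w) (2 * K + 1) : ℝ) =
          l * ((tp (2 * w) d 1 0 (2 * K + 1) : ℝ) - tp (2 * w) d 1 1 (2 * K + 1)) := by
        rw [v1]
        ring
      rw [this]
      linarith
    exact le_of_mul_le_mul_right q hF1
  have h4 : h * ts (2 * K) ((d : ℝ) / ((2 * w : ℕ) : ℝ)) ≤ (h' : ℝ) := by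
    have q : (h * ts (2 * K) ((d : ℝ) / ((2 * w : ℕ) : ℝ))) * (fc (2 * w) (2 * K) : ℝ) ≤
        (h' : ℝ) * (fc (2 * w) (2 * K) : ℝ) := by
      have : (h * ts (2 * K) ((d : ℝ) / ((2 * w : ℕ) : ℝ))) * (fc (2 * w) (2 * K) : ℝ) =
          h * ((tp (2 * w) d 1 0 (2 * K) : ℝ) - tp (2 * w) d 1 1 (2 * K)) := by
        rw [v2]
        ring
      rw [this]
      linarith
    exact le_of_mul_le_mul_right q hF2
  constructor
  · calc (l' : ℝ) ≤ l * ts (2 * K + 1) ((d : ℝ) / ((2 * w : ℕ) : ℝ)) := h3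
      _ ≤ l * Real.exp (-(d : ℝ) / ((2 * w : ℕ) : ℝ)) := mul_le_mul_of_nonneg_left e1 hl0
      _ ≤ X * Real.exp (-(d : ℝ) / ((2 * w : ℕ) : ℝ)) := mul_le_mul_of_nonneg_right hl hE.le
  · calc X * Real.exp (-(d : ℝ) / ((2 * w : ℕ) : ℝ)) ≤ h * Real.exp (-(d : ℝ) / ((2 * w : ℕ) : ℝ)) :=
          mul_le_mul_of_nonneg_right hh hE.le
      _ ≤ h * ts (2 * K) ((d : ℝ) / ((2 * w : ℕ) : ℝ)) := mul_le_mul_of_nonneg_left e2 (by positivity)
      _ ≤ h' := h4

theorem lin_le {A B y y1 y2 : ℝ} (h1 : y1 ≤ y) (h2 : y ≤ y2) (e1 : A + y1 * B ≤ 0)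
    (e2 : A + y2 * B ≤ 0) : A + y * B ≤ 0 := by
  rcases le_total 0 B with hB | hB
  · nlinarith
  · nlinarith

theorem scale_le {S A B y v : ℝ} (hS : 0 < S) (h : S * A + v * B ≤ 0) (hy : y = v / S) :
    A + y * B ≤ 0 := by
  have e : S * (A + y * B) = S * A + v * B := by
    rw [hy]
    field_simp
  by_contra hcon
  have := mul_pos hS (not_le.1 hcon)
  linarith

theorem go_sound {X w S K : ℕ} {E1 E2 : List ℤ} (hw : 0 < w) (hS : 0 < S)
    (hlen : E1.length = E2.length) : ∀ (pcs : List (ℕ × ℕ × ℕ)) (U l h : ℕ),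
    go X w S K E1 E2 pcs U l h = true →
    (l : ℝ) ≤ S * Real.exp (-(U : ℝ) / ((2 * w : ℕ) : ℝ)) →
    (S : ℝ) * Real.exp (-(U : ℝ) / ((2 * w : ℕ) : ℝ)) ≤ h →
    ∀ t : ℝ, 0 ≤ t → e1 E1 ((U + t) / w) +
      Real.exp (-(U + t) / ((2 * w : ℕ) : ℝ)) * e1 E2 ((U + t) / w) ≤ 0
  | [], U, l, h, hg, hl, hh, t, ht => by
    rw [go, Bool.and_eq_true] at hg
    have hS' : (0 : ℝ) < S := by exact_mod_cast hS
    have hc' : (0 : ℝ) < ((2 * w : ℕ) : ℝ) := by positivity
    have h1 := chkT_sound hg.1 hw hlen ht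
    have h2 := chkT_sound hg.2 hw hlen ht
    have hE : Real.exp (-(U + t) / ((2 * w : ℕ) : ℝ)) ≤ Real.exp (-(U : ℝ) / ((2 * w : ℕ) : ℝ)) := by
      apply Real.exp_le_exp.2
      apply div_le_div_of_nonneg_right _ hc'.le
      linarith
    have hE2 : Real.exp (-(U : ℝ) / ((2 * w : ℕ) : ℝ)) ≤ h / S := by
      rw [le_div_iff₀ hS', mul_comm]
      exact hh
    exact lin_le (y1 := 0) (y2 := (h : ℝ) / S) (Real.exp_pos _).le (hE.trans hE2)
      (scale_le hS' h1 (by simp)) (scale_le hS' h2 rfl)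
  | (U', l', h') :: r, U, l, h, hg, hl, hh, t, ht => by
    rw [go, Bool.and_eq_true, Bool.and_eq_true, Bool.and_eq_true, Bool.and_eq_true] at hg
    obtain ⟨g0, g1, g2, g3, g4⟩ := hg
    have hU : U < U' := by
      have : Nat.blt U U' = true := g0
      simpa [Nat.blt_eq] using this
    have hd : 0 < U' - U := by omega
    have hS' : (0 : ℝ) < S := by exact_mod_cast hS
    have hc' : (0 : ℝ) < ((2 * w : ℕ) : ℝ) := by positivity
    have hcast : ((U' - U : ℕ) : ℝ) = (U' : ℝ) - U := by push_cast [Nat.cast_sub hU.le]; ring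
    rcases le_or_gt t ((U' - U : ℕ) : ℝ) with htd | htd
    · have h1 := chkP_sound g1 hw hlen hd ht htd
      have h2 := chkP_sound g2 hw hlen hd ht htd
      have hx : (0 : ℝ) ≤ t / ((2 * w : ℕ) : ℝ) := by positivity
      have e1' := ts_lo K hx
      have e2' := ts_up K hx
      have e3 : -(t / ((2 * w : ℕ) : ℝ)) = -t / ((2 * w : ℕ) : ℝ) := by ring
      rw [e3] at e1' e2'
      have hE : Real.exp (-(U + t) / ((2 * w : ℕ) : ℝ)) =
          Real.exp (-(U : ℝ) / ((2 * w : ℕ) : ℝ)) * Real.exp (-t / ((2 * w : ℕ) : ℝ)) := by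
        rw [← Real.exp_add]
        congr 1
        ring
      have hl0 : (0 : ℝ) ≤ l := Nat.cast_nonneg l
      have hE0 := Real.exp_pos (-t / ((2 * w : ℕ) : ℝ))
      have b1 : (l : ℝ) * ts (2 * K + 1) (t / ((2 * w : ℕ) : ℝ)) / S ≤
          Real.exp (-(U + t) / ((2 * w : ℕ) : ℝ)) := by
        rw [hE, div_le_iff₀ hS']
        calc (l : ℝ) * ts (2 * K + 1) (t / ((2 * w : ℕ) : ℝ)) ≤
              l * Real.exp (-t / ((2 * w : ℕ) : ℝ)) := mul_le_mul_of_nonneg_left e1' hl0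
          _ ≤ (S * Real.exp (-(U : ℝ) / ((2 * w : ℕ) : ℝ))) * Real.exp (-t / ((2 * w : ℕ) : ℝ)) :=
              mul_le_mul_of_nonneg_right hl hE0.le
          _ = _ := by ring
      have b2 : Real.exp (-(U + t) / ((2 * w : ℕ) : ℝ)) ≤
          (h : ℝ) * ts (2 * K) (t / ((2 * w : ℕ) : ℝ)) / S := by
        rw [hE, le_div_iff₀ hS']
        calc Real.exp (-(U : ℝ) / ((2 * w : ℕ) : ℝ)) * Real.exp (-t / ((2 * w : ℕ) : ℝ)) * S =
              (S * Real.exp (-(U : ℝ) / ((2 * w : ℕ) : ℝ))) * Real.exp (-t / ((2 * w : ℕ) : ℝ)) := by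
              ring
          _ ≤ h * Real.exp (-t / ((2 * w : ℕ) : ℝ)) := mul_le_mul_of_nonneg_right hh hE0.le
          _ ≤ _ := mul_le_mul_of_nonneg_left e2' (by positivity)
      exact lin_le b1 b2 (scale_le hS' h1 rfl) (scale_le hS' h2 rfl)
    · have hb := bnd_sound hw g3 hl hh
      have hE : (S : ℝ) * Real.exp (-(U : ℝ) / ((2 * w : ℕ) : ℝ)) *
          Real.exp (-((Nat.sub U' U : ℕ) : ℝ) / ((2 * w : ℕ) : ℝ)) =
          S * Real.exp (-(U' : ℝ) / ((2 * w : ℕ) : ℝ)) := by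
        have : ((Nat.sub U' U : ℕ) : ℝ) = (U' : ℝ) - U := hcast
        rw [mul_assoc, ← Real.exp_add, this]
        congr 2
        ring
      rw [hE] at hb
      have ih := go_sound hw hS hlen r U' l' h' g4 hb.1 hb.2 (t - (U' - U : ℕ)) (by linarith)
      have q1 : (U' : ℝ) + (t - (U' - U : ℕ)) = U + t := by
        rw [hcast]
        ring
      rw [q1] at ih
      exact ih

theorem preOk_sound {w K S U0 l0 h0 : ℕ} (hw : 0 < w) :
    ∀ (pre : List (ℕ × ℕ × ℕ)) (U l h : ℕ), preOk w K U0 l0 h0 pre U l h = true →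
    (l : ℝ) ≤ S * Real.exp (-(U : ℝ) / ((2 * w : ℕ) : ℝ)) →
    (S : ℝ) * Real.exp (-(U : ℝ) / ((2 * w : ℕ) : ℝ)) ≤ h →
    (l0 : ℝ) ≤ S * Real.exp (-(U0 : ℝ) / ((2 * w : ℕ) : ℝ)) ∧
      (S : ℝ) * Real.exp (-(U0 : ℝ) / ((2 * w : ℕ) : ℝ)) ≤ h0
  | [], U, l, h, hp, hl, hh => by
    rw [preOk, Bool.and_eq_true, Bool.and_eq_true] at hp
    have e : U = U0 := Nat.eq_of_beq_eq_true hp.1
    subst e
    have h1 : l0 ≤ l := Nat.le_of_ble_eq_true hp.2.1
    have h2 : h ≤ h0 := Nat.le_of_ble_eq_true hp.2.2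
    have h1' : (l0 : ℝ) ≤ l := by exact_mod_cast h1
    have h2' : (h : ℝ) ≤ h0 := by exact_mod_cast h2
    exact ⟨h1'.trans hl, hh.trans h2'⟩
  | (U', l', h') :: r, U, l, h, hp, hl, hh => by
    rw [preOk, Bool.and_eq_true, Bool.and_eq_true] at hp
    have hU : U ≤ U' := Nat.le_of_ble_eq_true hp.1
    have hb := bnd_sound hw hp.2.1 hl hh
    have hE : (S : ℝ) * Real.exp (-(U : ℝ) / ((2 * w : ℕ) : ℝ)) *
        Real.exp (-((Nat.sub U' U : ℕ) : ℝ) / ((2 * w : ℕ) : ℝ)) =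
        S * Real.exp (-(U' : ℝ) / ((2 * w : ℕ) : ℝ)) := by
      have : ((Nat.sub U' U : ℕ) : ℝ) = (U' : ℝ) - U := by
        have : Nat.sub U' U = U' - U := rfl
        rw [this]
        push_cast [Nat.cast_sub hU]
        ring
      rw [mul_assoc, ← Real.exp_add, this]
      congr 2
      ring
    rw [hE] at hb
    exact preOk_sound hw r U' l' h' hp.2.2 hb.1 hb.2

/-- **soundness of the check of the one-variable conditions** -/
theorem linesSound {X w S K1 K2 U0 l0 h0 : ℕ} {pre : List (ℕ × ℕ × ℕ)} {E1 E2 : List ℤ}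
    {pcs : List (ℕ × ℕ × ℕ)} (h : chkLines X w S K1 K2 pre U0 l0 h0 E1 E2 pcs = true) (a : ℝ)
    (ha : (U0 : ℝ) / w ≤ a) : e1 E1 a + Real.exp (-a / 2) * e1 E2 a ≤ 0 := by
  rw [chkLines, Bool.and_eq_true, Bool.and_eq_true, Bool.and_eq_true, Bool.and_eq_true] at h
  obtain ⟨h1, h2, h3, h4, h5⟩ := h
  have hw : 0 < w := by simpa [Nat.blt_eq] using h1
  have hS : 0 < S := by simpa [Nat.blt_eq] using h2
  have hlen : E1.length = E2.length := Nat.eq_of_beq_eq_true h3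
  obtain ⟨hl, hu⟩ := preOk_sound (S := S) hw pre 0 S S h4 (by simp) (by simp)
  have hw' : (0 : ℝ) < w := by exact_mod_cast hw
  have ht : 0 ≤ (w : ℝ) * a - U0 := by
    rw [div_le_iff₀ hw'] at ha
    linarith
  have key := go_sound hw hS hlen pcs U0 l0 h0 h5 hl hu _ ht
  have q1 : ((U0 : ℝ) + ((w : ℝ) * a - U0)) / w = a := by
    field_simp
    ring
  have q2 : -((U0 : ℝ) + ((w : ℝ) * a - U0)) / ((2 * w : ℕ) : ℝ) = -a / 2 := by
    push_cast
    field_simp
    ring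
  rw [q1, q2] at key
  exact key

end

end Pool.Agent.Helper7_KRO
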